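import Pool.Agent.W458.FJ.Stm

/-!
# Project FJ (helper458), part B2
-/

open Finset

namespace Pool.Agent.W239.FJ.B2

open Pool.Agent.W458.FJ

lemma pp (p k m n : ℕ) (hp : p.Prime) (hm : m ≠ 0) (hn : n ≠ 0) (h : p ^ k ∣ Nat.lcm m n) :
    p ^ k ∣ m ∨ p ^ k ∣ n := by
  rw [hp.pow_dvd_iff_le_factorization (Nat.lcm_ne_zero hm hn), Nat.factorization_lcm hm hn,
    Finsupp.sup_apply, le_sup_iff] at h
  rcases h with h | h
  · exact Or.inl ((hp.pow_dvd_iff_le_factorization hm).2 h)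
  · exact Or.inr ((hp.pow_dvd_iff_le_factorization hn).2 h)

lemma ppl {ι : Type} [DecidableEq ι] (b : ι → ℕ) (c g p k : ℕ) (hp : p.Prime) (T : Finset ι)
    (hb : ∀ i, b i ≠ 0) (h : ∀ i ∈ T, Nat.gcd c (b i) ∣ g) (hc : p ^ k ∣ c)
    (h2 : p ^ k ∣ T.lcm b) : p ^ k ∣ g := by
  induction T using Finset.induction_on with
  | empty =>
    rw [Finset.lcm_empty] at h2
    exact h2.trans (one_dvd g)
  | insert a s ha ih =>
    rw [Finset.lcm_insert] at h2
    have h3 : s.lcm b ≠ 0 := by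
      rw [Ne, Finset.lcm_eq_zero_iff]
      rintro ⟨i, _, hi⟩
      exact hb i hi
    rcases pp p k (b a) (s.lcm b) hp (hb a) h3 h2 with h4 | h4
    · exact (Nat.dvd_gcd hc h4).trans (h a (mem_insert_self a s))
    · exact ih (fun i hi => h i (mem_insert_of_mem hi)) h4

lemma dl_comm (d₁ d₂ h : ℕ) : dl d₁ d₂ h = dl d₂ d₁ h := by
  unfold dl
  exact Nat.add_comm _ _

lemma Q_lem {ι : Type} [Fintype ι] [DecidableEq ι] (a : ι → ℕ) (d₁ d₂ : ℕ)
    (ha : ∀ i, 0 < a i) (h1 : 0 < d₁) (h2 : 0 < d₂) (hR : Reg a d₁ d₂) (x : ι)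
    (hx1 : a x ∣ d₁) (hx2 : ¬ a x ∣ d₂) :
    ∃ Q, 0 < Q ∧ 2 * Q ≤ d₁ ∧ Nat.gcd d₁ d₂ ∣ Q ∧
      ∀ i, i ≠ x → a i ∣ d₁ → ¬ a i ∣ d₂ → a i ∣ Q := by
  let T : Finset ι := univ.filter fun i => i ≠ x ∧ a i ∣ d₁ ∧ ¬ a i ∣ d₂
  have hg0 : Nat.gcd d₁ d₂ ≠ 0 := (Nat.gcd_pos_of_pos_left d₂ h1).ne'
  have hT0 : T.lcm a ≠ 0 := by
    rw [Ne, Finset.lcm_eq_zero_iff]
    rintro ⟨i, _, hi⟩
    exact (ha i).ne' hi
  have hQ0 : Nat.lcm (Nat.gcd d₁ d₂) (T.lcm a) ≠ 0 := Nat.lcm_ne_zero hg0 hT0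
  have hQd : Nat.lcm (Nat.gcd d₁ d₂) (T.lcm a) ∣ d₁ := by
    refine Nat.lcm_dvd (Nat.gcd_dvd_left _ _) (Finset.lcm_dvd fun i hi => ?_)
    exact (mem_filter.1 hi).2.2.1
  have hxQ : ¬ a x ∣ Nat.lcm (Nat.gcd d₁ d₂) (T.lcm a) := by
    intro hxq
    have h3 : a x ∣ Nat.gcd d₁ d₂ := by
      rw [Nat.dvd_iff_prime_pow_dvd_dvd]
      intro p k hp hk
      rcases pp p k _ _ hp hg0 hT0 (hk.trans hxq) with h4 | h4
      · exact h4
      · refine ppl a (a x) (Nat.gcd d₁ d₂) p k hp T (fun i => (ha i).ne') ?_ hk h4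
        intro i hi
        obtain ⟨hix, hi1, hi2⟩ := (mem_filter.1 hi).2
        have ht1 : Nat.gcd (a x) (a i) ∣ d₁ := (Nat.gcd_dvd_left _ _).trans hx1
        refine Nat.dvd_gcd ht1 ?_
        by_contra ht2
        have ht : 1 < Nat.gcd (a x) (a i) := by
          have h5 : 0 < Nat.gcd (a x) (a i) := Nat.gcd_pos_of_pos_left _ (ha x)
          have h6 : Nat.gcd (a x) (a i) ≠ 1 := by
            intro h7
            rw [h7] at ht2
            exact ht2 (one_dvd _)
          omega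
        have h5 := hR _ ht
        have h6 : dl d₁ d₂ (Nat.gcd (a x) (a i)) = 1 := by
          unfold dl
          rw [if_pos ht1, if_neg ht2]
        have h7 : 2 ≤ cnt univ a (Nat.gcd (a x) (a i)) := by
          unfold cnt
          have h8 : ({x, i} : Finset ι) ⊆ univ.filter fun j => Nat.gcd (a x) (a i) ∣ a j := by
            intro j hj
            rw [mem_insert, mem_singleton] at hj
            rw [mem_filter]
            refine ⟨mem_univ _, ?_⟩
            rcases hj with rfl | rfl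
            · exact Nat.gcd_dvd_left _ _
            · exact Nat.gcd_dvd_right _ _
          have h9 := card_le_card h8
          rwa [card_pair hix.symm] at h9
        omega
    exact hx2 (h3.trans (Nat.gcd_dvd_right _ _))
  refine ⟨Nat.lcm (Nat.gcd d₁ d₂) (T.lcm a), Nat.pos_of_ne_zero hQ0, ?_, Nat.dvd_lcm_left _ _, ?_⟩
  · obtain ⟨m, hm⟩ := hQd
    have h3 : m ≠ 0 := by
      rintro rfl
      omega
    have h4 : m ≠ 1 := by
      rintro rfl
      rw [mul_one] at hm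
      rw [← hm] at hxQ
      exact hxQ hx1
    have h5 : 2 ≤ m := by omega
    calc 2 * Nat.lcm (Nat.gcd d₁ d₂) (T.lcm a) = Nat.lcm (Nat.gcd d₁ d₂) (T.lcm a) * 2 :=
          Nat.mul_comm _ _
      _ ≤ Nat.lcm (Nat.gcd d₁ d₂) (T.lcm a) * m := Nat.mul_le_mul_left _ h5
      _ = d₁ := hm.symm
  · intro i hix hi1 hi2
    exact (Finset.dvd_lcm (f := a) (mem_filter.2 ⟨mem_univ i, hix, hi1, hi2⟩ : i ∈ T)).trans
      (Nat.dvd_lcm_right _ _)

theorem main : SUM → Pool.Agent.W458.FJ.B2 := by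
  intro hS ι _ _ a d₁ d₂ ha h1 h2 hR x y hxy hx1 hx2 hy2 hy1 hl1 hl2
  have hR' : Reg a d₂ d₁ := by
    intro h hh
    rw [dl_comm]
    exact hR h hh
  obtain ⟨Q₁, hQ₁, hQ₁d, hQ₁g, hQ₁a⟩ := Q_lem a d₁ d₂ ha h1 h2 hR x hx1 hx2
  obtain ⟨Q₂, hQ₂, hQ₂d, hQ₂g, hQ₂a⟩ := Q_lem a d₂ d₁ ha h2 h1 hR' y hy2 hy1
  rw [Nat.gcd_comm] at hQ₂g
  have hmain := hS ι (univ \ {x, y}) a (fun i _ => ha i) 1 1 Q₁ Q₂ one_pos one_pos hQ₁ hQ₂ ?_
  · have hsum : ∑ i, (a i - 1) = ∑ i ∈ univ \ {x, y}, (a i - 1) + ((a x - 1) + (a y - 1)) := by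
      rw [← sum_sdiff (subset_univ ({x, y} : Finset ι)), sum_pair hxy]
    rw [hsum]
    obtain ⟨u, hu⟩ : ∃ u, a x = u + 1 := ⟨a x - 1, by have := ha x; omega⟩
    obtain ⟨v, hv⟩ : ∃ v, a y = v + 1 := ⟨a y - 1, by have := ha y; omega⟩
    rw [hu, hv] at hl1 hl2 ⊢
    have e1 : (u + 1) * (v + 1) = u * v + u + v + 1 := by ring
    rw [e1] at hl1 hl2
    simp only [Nat.add_sub_cancel]
    generalize u * v = P at *
    omega
  · intro h hh
    have e1 : dl 1 1 h = 0 := by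
      unfold dl
      rw [if_neg]
      intro h3
      have := Nat.le_of_dvd one_pos h3
      omega
    rw [e1, Nat.add_zero]
    have hle : cnt (univ \ {x, y}) a h ≤ cnt univ a h := by
      unfold cnt
      exact card_le_card (filter_subset_filter _ (subset_univ _))
    have hr := hR h hh
    by_cases hg : h ∣ Nat.gcd d₁ d₂
    · have e2 : dl Q₁ Q₂ h = 2 := by
        unfold dl
        rw [if_pos (hg.trans hQ₁g), if_pos (hg.trans hQ₂g)]
      have e3 : dl d₁ d₂ h ≤ 2 := by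
        unfold dl
        split_ifs <;> omega
      omega
    · by_cases h0 : cnt (univ \ {x, y}) a h = 0
      · rw [h0]
        exact Nat.zero_le _
      · have e3 : dl d₁ d₂ h ≤ 1 := by
          unfold dl
          split_ifs with h3 h4
          · exact absurd (Nat.dvd_gcd h3 h4) hg
          all_goals omega
        obtain ⟨i, hi⟩ : ((univ \ {x, y}).filter fun i => h ∣ a i).Nonempty :=
          card_pos.1 (Nat.pos_of_ne_zero h0)
        rw [mem_filter, mem_sdiff, mem_insert, mem_singleton, not_or] at hi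
        obtain ⟨⟨_, hix, hiy⟩, hia⟩ := hi
        have hai : 1 < a i := by
          have := Nat.le_of_dvd (ha i) hia
          omega
        have hri := hR (a i) hai
        have hci : 1 ≤ cnt univ a (a i) := by
          unfold cnt
          exact card_pos.2 ⟨i, mem_filter.2 ⟨mem_univ i, dvd_refl _⟩⟩
        have hdi : a i ∣ d₁ ∨ a i ∣ d₂ := by
          by_contra hne
          rw [not_or] at hne
          have : dl d₁ d₂ (a i) = 0 := by
            unfold dl
            rw [if_neg hne.1, if_neg hne.2]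
          omega
        have hfin : 1 ≤ dl Q₁ Q₂ h := by
          rcases hdi with hd | hd
          · have h5 : ¬ a i ∣ d₂ := fun h6 => hg (Nat.dvd_gcd (hia.trans hd) (hia.trans h6))
            have h6 := hia.trans (hQ₁a i hix hd h5)
            unfold dl
            rw [if_pos h6]
            omega
          · have h5 : ¬ a i ∣ d₁ := fun h6 => hg (Nat.dvd_gcd (hia.trans h6) (hia.trans hd))
            have h6 := hia.trans (hQ₂a i hiy hd h5)
            unfold dl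
            rw [if_pos h6]
            omega
        omega

end Pool.Agent.W239.FJ.B2
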